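import Pool.Agent.Lib.MP_6659c6_co.ExtMain

/-!
# `r_Δ > 3` for `Δ = 16` and for all `Δ ≥ 29`
-/

namespace Pool.Agent.Results.MP_6659c6_co.AboveThree

open Pool.Agent.Lib.MP_6659c6_co

/-- For `D = 16` and for every `D ≥ 29` every admissible constant is larger than `3`. -/
theorem result : ∀ D : ℕ, (D = 16 ∨ 29 ≤ D) → ∀ r : ℝ, Admissible D r → 3 < r :=
  fun D hD r hr => Ext.gt_three D hD r hr

end Pool.Agent.Results.MP_6659c6_co.AboveThree
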