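import Pool.Agent.Lib.MP_6659c6_co.AllDeg

/-!
# An explicit family of lower bounds for `r_Δ`, for all degrees
-/

namespace Pool.Agent.Results.MP_6659c6_co.AllDegrees

open Pool.Agent.Lib.MP_6659c6_co

/-- For all `d, t ≥ 1` and `2 ≤ D ≤ t 2^(d-1)` every admissible constant for `D` is at least
`d D / (t (2^d - 1) - d)`. -/
theorem result : ∀ d t D : ℕ, 1 ≤ d → 1 ≤ t → 2 ≤ D → D ≤ t * 2 ^ (d - 1) →
    ∀ r : ℝ, Admissible D r →
      0 < (t : ℝ) * (2 ^ d - 1) - d ∧ (d : ℝ) * D / (t * (2 ^ d - 1) - d) ≤ r :=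
  fun d t D hd ht hD2 hD r hr =>
    ⟨(AllDeg.family d t D hd ht hD2 hD r hr).1, AllDeg.family_div d t D hd ht hD2 hD r hr⟩

end Pool.Agent.Results.MP_6659c6_co.AllDegrees
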