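import Pool.Agent.Lib.MP_6659c6_co.Upper3
import Pool.Agent.Lib.MP_6659c6_co.RandMain

/-!
# The optimal constant `r_Δ` in the edge bound for total domination lies between
`ln Δ - 2 ln ln Δ` and `(1 + ln Δ) / (1 - (1 + ln Δ) / Δ)`
-/

namespace Pool.Agent.Results.MP_6659c6_co.LogBounds

open Filter Topology Pool.Agent.Lib.MP_6659c6_co

lemma totalDomNumber_le_card {V : Type} [Fintype V] (G : SimpleGraph V)
    (h : ∀ v, ∃ w, G.Adj v w) : totalDomNumber G ≤ Fintype.card V := by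
  apply Nat.sInf_le
  exact ⟨Finset.univ, fun v => (h v).imp fun w hw => ⟨Finset.mem_univ w, hw⟩, rfl⟩

lemma bddBelow_admissible (Δ : ℕ) (h3 : 3 ≤ Δ) : BddBelow {x : ℝ | Admissible Δ x} := by
  refine ⟨-(Δ : ℝ), ?_⟩
  intro x hx
  by_contra hneg
  push Not at hneg
  have hconn : (⊤ : SimpleGraph (Fin 3)).Connected := SimpleGraph.connected_top
  have hdeg : ∀ v, ((⊤ : SimpleGraph (Fin 3)).neighborSet v).ncard ≤ Δ := by
    intro v
    have h1 : ((⊤ : SimpleGraph (Fin 3)).neighborSet v).ncard ≤ (Set.univ : Set (Fin 3)).ncard :=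
      Set.ncard_le_ncard (Set.subset_univ _)
    rw [Set.ncard_univ, Nat.card_eq_fintype_card, Fintype.card_fin] at h1
    omega
  have h := hx (Fin 3) ⊤ hconn (by simp) hdeg
  have hγ : totalDomNumber (⊤ : SimpleGraph (Fin 3)) ≤ Fintype.card (Fin 3) := by
    apply totalDomNumber_le_card
    decide
  have hγ' : (totalDomNumber (⊤ : SimpleGraph (Fin 3)) : ℝ) ≤ Fintype.card (Fin 3) := by
    exact_mod_cast hγ
  have hE : (0 : ℝ) < (⊤ : SimpleGraph (Fin 3)).edgeSet.ncard := by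
    have : 0 < (⊤ : SimpleGraph (Fin 3)).edgeSet.ncard := by
      rw [Set.ncard_pos]
      refine ⟨s(0, 1), ?_⟩
      rw [SimpleGraph.mem_edgeSet]
      decide
    exact_mod_cast this
  have : 1 / 2 * ((Δ : ℝ) + x) * ((Fintype.card (Fin 3) : ℝ)
      - totalDomNumber (⊤ : SimpleGraph (Fin 3))) ≤ 0 := by
    apply mul_nonpos_of_nonpos_of_nonneg
    · linarith
    · linarith
  linarith

lemma isClosed_admissible (Δ : ℕ) : IsClosed {x : ℝ | Admissible Δ x} := by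
  unfold Admissible
  simp only [Set.setOf_forall]
  refine isClosed_iInter fun V => isClosed_iInter fun _ => isClosed_iInter fun G =>
    isClosed_iInter fun _ => isClosed_iInter fun _ => isClosed_iInter fun _ => ?_
  exact isClosed_le continuous_const (by fun_prop)

lemma isLeast_sInf (Δ : ℕ) (h3 : 3 ≤ Δ) :
    IsLeast {x : ℝ | Admissible Δ x} (sInf {x : ℝ | Admissible Δ x}) :=
  ⟨(isClosed_admissible Δ).csInf_mem ⟨_, admissible_upper Δ h3⟩ (bddBelow_admissible Δ h3),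
    fun _ hx => csInf_le (bddBelow_admissible Δ h3) hx⟩

lemma tendsto_ratio (r : ℕ → ℝ)
    (hu : ∀ Δ : ℕ, 3 ≤ Δ → r Δ ≤ (1 + Real.log Δ) / (1 - (1 + Real.log Δ) / Δ))
    (hl : ∀ Δ : ℕ, 64 ≤ Real.log Δ → Real.log Δ - 6 * Real.log (Real.log Δ) - 8 ≤ r Δ) :
    Tendsto (fun Δ : ℕ => r Δ / Real.log Δ) atTop (𝓝 1) := by
  have hL : Tendsto (fun Δ : ℕ => Real.log (Δ : ℝ)) atTop atTop :=
    Real.tendsto_log_atTop.comp tendsto_natCast_atTop_atTop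
  have hlogdiv : Tendsto (fun x : ℝ => Real.log x / x) atTop (𝓝 0) := by
    have := Real.isLittleO_log_id_atTop.tendsto_div_nhds_zero
    simpa using this
  have h1 : Tendsto (fun Δ : ℕ => Real.log (Real.log (Δ : ℝ)) / Real.log (Δ : ℝ)) atTop (𝓝 0) :=
    hlogdiv.comp hL
  have h2 : Tendsto (fun Δ : ℕ => (Real.log (Δ : ℝ))⁻¹) atTop (𝓝 0) :=
    tendsto_inv_atTop_zero.comp hL
  have h3 : Tendsto (fun Δ : ℕ => Real.log (Δ : ℝ) / Δ) atTop (𝓝 0) :=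
    hlogdiv.comp tendsto_natCast_atTop_atTop
  have h4 : Tendsto (fun Δ : ℕ => ((Δ : ℝ))⁻¹) atTop (𝓝 0) :=
    tendsto_inv_atTop_zero.comp tendsto_natCast_atTop_atTop
  have hlow : Tendsto (fun Δ : ℕ => 1 - 6 * (Real.log (Real.log (Δ : ℝ)) / Real.log (Δ : ℝ))
      - 8 * (Real.log (Δ : ℝ))⁻¹) atTop (𝓝 1) := by
    have := (tendsto_const_nhds (x := (1 : ℝ))).sub (h1.const_mul 6) |>.sub (h2.const_mul 8)
    simpa using this
  have hup : Tendsto (fun Δ : ℕ => ((Real.log (Δ : ℝ))⁻¹ + 1) /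
      (1 - ((Δ : ℝ)⁻¹ + Real.log (Δ : ℝ) / Δ))) atTop (𝓝 1) := by
    have hn := h2.add (tendsto_const_nhds (x := (1 : ℝ)))
    have hd := (tendsto_const_nhds (x := (1 : ℝ))).sub (h4.add h3)
    have h5 : Tendsto (fun Δ : ℕ => ((Real.log (Δ : ℝ))⁻¹ + 1) /
      (1 - ((Δ : ℝ)⁻¹ + Real.log (Δ : ℝ) / Δ))) atTop (𝓝 ((0 + 1) / (1 - (0 + 0)))) :=
      hn.div hd (by norm_num)
    simpa using h5
  refine tendsto_of_tendsto_of_tendsto_of_le_of_le' hlow hup ?_ ?_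
  · filter_upwards [hL.eventually_ge_atTop 64] with Δ hΔ
    have hpos : 0 < Real.log (Δ : ℝ) := by linarith
    rw [le_div_iff₀ hpos]
    have := hl Δ hΔ
    have e : (1 - 6 * (Real.log (Real.log (Δ : ℝ)) / Real.log (Δ : ℝ))
      - 8 * (Real.log (Δ : ℝ))⁻¹) * Real.log (Δ : ℝ)
        = Real.log Δ - 6 * Real.log (Real.log Δ) - 8 := by
      field_simp
    rw [e]
    exact this
  · filter_upwards [hL.eventually_ge_atTop 64, eventually_ge_atTop 3] with Δ hΔ hΔ3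
    have hpos : 0 < Real.log (Δ : ℝ) := by linarith
    rw [div_le_iff₀ hpos]
    refine (hu Δ hΔ3).trans (le_of_eq ?_)
    have hΔ0 : (Δ : ℝ) ≠ 0 := by
      have : (0 : ℝ) < Δ := by exact_mod_cast (by omega : 0 < Δ)
      exact ne_of_gt this
    have e1 : (1 + Real.log (Δ : ℝ)) / Δ = (Δ : ℝ)⁻¹ + Real.log (Δ : ℝ) / Δ := by
      field_simp
    rw [e1, div_mul_eq_mul_div]
    congr 1
    field_simp

/-- **Main theorem.** The minimum `r_Δ` of the admissible constants exists for every `Δ ≥ 3`, and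
`ln Δ - 2 ln ln Δ ≤ r_Δ ≤ (1 + ln Δ) / (1 - (1 + ln Δ) / Δ)` for all `Δ ≥ 3`. More precisely
`r_Δ ≥ a Δ / (1 - a)` for every `0 < a < 1` with
`-a ln a - (1-a) ln (1-a) + ln (1 - (1-a)^Δ) < 0`. In particular `r_Δ / ln Δ → 1`. -/
theorem result : ∃ r : ℕ → ℝ,
    (∀ Δ : ℕ, 3 ≤ Δ → IsLeast {x : ℝ | Admissible Δ x} (r Δ)) ∧
    (∀ Δ : ℕ, 3 ≤ Δ → Real.log Δ - 2 * Real.log (Real.log Δ) ≤ r Δ) ∧
    (∀ Δ : ℕ, 3 ≤ Δ → r Δ ≤ (1 + Real.log Δ) / (1 - (1 + Real.log Δ) / Δ)) ∧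
    (∀ Δ : ℕ, 3 ≤ Δ → ∀ a : ℝ, 0 < a → a < 1 →
      -(a * Real.log a) - (1 - a) * Real.log (1 - a) + Real.log (1 - (1 - a) ^ Δ) < 0 →
      a * Δ / (1 - a) ≤ r Δ) ∧
    Tendsto (fun Δ : ℕ => r Δ / Real.log Δ) atTop (𝓝 1) := by
  have hu : ∀ Δ : ℕ, 3 ≤ Δ → sInf {x : ℝ | Admissible Δ x}
      ≤ (1 + Real.log Δ) / (1 - (1 + Real.log Δ) / Δ) :=
    fun Δ hΔ => (isLeast_sInf Δ hΔ).2 (admissible_upper Δ hΔ)
  have hl : ∀ Δ : ℕ, 3 ≤ Δ →
      Real.log Δ - 2 * Real.log (Real.log Δ) ≤ sInf {x : ℝ | Admissible Δ x} :=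
    fun Δ hΔ => Rand.lower_all Δ hΔ _ (isLeast_sInf Δ hΔ).1
  have hl' : ∀ Δ : ℕ, 64 ≤ Real.log Δ →
      Real.log Δ - 6 * Real.log (Real.log Δ) - 8 ≤ sInf {x : ℝ | Admissible Δ x} := by
    intro Δ hΔ
    have h3 : 3 ≤ Δ := by
      by_contra hlt
      have h1 : (Δ : ℝ) ≤ 2 := by exact_mod_cast (by omega : Δ ≤ 2)
      have h2 : Real.log (Δ : ℝ) ≤ Δ := by
        rcases Nat.eq_zero_or_pos Δ with h | h
        · rw [h]; simp
        · exact (Real.log_le_sub_one_of_pos (by exact_mod_cast h)).trans (by linarith)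
      linarith
    have h4 := hl Δ h3
    have h5 : 0 ≤ Real.log (Real.log (Δ : ℝ)) := Real.log_nonneg (by linarith)
    linarith
  exact ⟨fun Δ => sInf {x : ℝ | Admissible Δ x}, isLeast_sInf, hl, hu,
    fun Δ hΔ a h0 h1 ha => Rand.entropy_real Δ (by omega) a h0 h1
      (by unfold Rand.expo; exact ha) _ (isLeast_sInf Δ hΔ).1,
    tendsto_ratio _ hu hl'⟩

end Pool.Agent.Results.MP_6659c6_co.LogBounds
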