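import Pool.Agent.Lib.MP_6659c6_co.UpMain

/-!
# Upper bounds for the optimal constant `r_Δ` in the edge bound for total domination

For every `Δ ≥ 5` one has `r_Δ ≤ Δ ^ 2 Δ ^ (1 / (Δ - 1)) / (Δ - 1) - Δ < 2 √Δ`, and the upper limit of
`r_Δ - ln Δ` is at most the Euler-Mascheroni constant `γ`.
-/

set_option autoImplicit false

namespace Pool.Agent.Results.MP_6659c6_co.UpperBounds

open Filter Pool.Agent.Lib.MP_6659c6_co

theorem admissible_mono (Δ : ℕ) (x y : ℝ) (hxy : x ≤ y) (hx : Admissible Δ x) :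
    Admissible Δ y := by
  intro V _ G hG hcard hdeg
  classical
  refine (hx V G hG hcard hdeg).trans ?_
  have hnb : ∀ v, ∃ w ∈ (Finset.univ : Finset V), G.Adj v w := by
    intro v
    have h1 := degree_pos G hG hcard v
    have h2 : (G.neighborFinset v).Nonempty := by
      rw [← Finset.card_pos, SimpleGraph.card_neighborFinset_eq_degree]
      omega
    obtain ⟨w, hw⟩ := h2
    exact ⟨w, Finset.mem_univ w, by simpa using hw⟩
  have h1 : totalDomNumber G ≤ Fintype.card V := Nat.sInf_le ⟨Finset.univ, hnb, rfl⟩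
  have h2 : (totalDomNumber G : ℝ) ≤ Fintype.card V := by exact_mod_cast h1
  apply mul_le_mul_of_nonneg_right _ (by linarith)
  linarith

/-- **Main theorem.** Upper bounds for the admissible constants. -/
theorem result :
    (∀ Δ : ℕ, 5 ≤ Δ →
      Admissible Δ ((Δ : ℝ) ^ 2 * (Δ : ℝ) ^ (1 / ((Δ : ℝ) - 1)) / ((Δ : ℝ) - 1) - Δ) ∧
      (Δ : ℝ) ^ 2 * (Δ : ℝ) ^ (1 / ((Δ : ℝ) - 1)) / ((Δ : ℝ) - 1) - Δ < 2 * Real.sqrt Δ) ∧
    (∀ ε : ℝ, 0 < ε → ∀ᶠ Δ : ℕ in atTop,
      Admissible Δ (Real.log Δ + Real.eulerMascheroniConstant + ε)) := by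
  refine ⟨fun Δ h5 => ⟨Up5.admissible_UU Δ h5, Up5.UU_lt Δ h5⟩, fun ε hε => ?_⟩
  have h1 := Real.tendsto_harmonic_sub_log.eventually
    (gt_mem_nhds (show Real.eulerMascheroniConstant < Real.eulerMascheroniConstant + ε / 2 by
      linarith))
  obtain ⟨k, hk1, hk⟩ := ((eventually_ge_atTop 1).and h1).exists
  filter_upwards [Up5.admissible_eventually k hk1 (ε / 2) (by linarith)] with Δ hΔ
  obtain ⟨x, hx, hxle⟩ := hΔ
  exact admissible_mono Δ x _ (by linarith) hx

end Pool.Agent.Results.MP_6659c6_co.UpperBounds
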